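import Pool.Agent.W_d96d20_h7.Hyp

/-!
# `c₂ = [0;1,1,2,2,3,3,...]` is not related to the known closed forms

`fcf a n` is the finite continued fraction `[0; a 0, ..., a (n-1)]`, `cf a` the limit of these
convergents, `hyp c z` the hypergeometric series `0F1(; c; z)`.
-/

set_option autoImplicit false

open Filter Topology

namespace Pool.Agent.Results.MP_d96d20_an.NotMoebius

open Pool.Agent.W_d96d20_h7

/-- The number `c₂ = [0;1,1,2,2,3,3,...]`. -/
noncomputable def c2 : ℝ := cf fun n => n / 2 + 1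

theorem half_le (n : ℕ) : ((n / 2 + 1 : ℕ) : ℝ) ≤ 1 / 2 * n + 1 := by
  have h : ((2 * (n / 2) : ℕ) : ℝ) ≤ n := by exact_mod_cast Nat.mul_div_le n 2
  push_cast at h ⊢
  linarith

theorem half_tendsto : Tendsto (fun n : ℕ => ((n / 2 + 1 : ℕ) : ℝ)) atTop atTop := by
  refine tendsto_natCast_atTop_atTop.comp ?_
  refine tendsto_atTop_atTop.2 fun b => ⟨2 * b, fun n hn => ?_⟩
  omega

theorem lin_of_int {v : Fin 4 → ℝ}
    (h : ∀ A B C D : ℤ, (A : ℝ) * v 0 + B * v 1 + C * v 2 + D * v 3 = 0 →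
      A = 0 ∧ B = 0 ∧ C = 0 ∧ D = 0) : LinearIndependent ℚ v := by
  rw [← LinearIndependent.iff_fractionRing (R := ℤ) (K := ℚ), Fintype.linearIndependent_iff]
  intro g hg
  have h1 := h (g 0) (g 1) (g 2) (g 3) (by
    simp only [Fin.sum_univ_four, zsmul_eq_mul] at hg
    exact hg)
  intro i
  fin_cases i
  · exact h1.1
  · exact h1.2.1
  · exact h1.2.2.1
  · exact h1.2.2.2

theorem general {a b : ℕ → ℕ} (ha : ∀ i, 1 ≤ a i) (hb : ∀ i, 1 ≤ b i) {μ K lam : ℝ}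
    (hμ : 0 < μ) (hml : μ < lam) (hau : ∀ n : ℕ, (a n : ℝ) ≤ μ * n + K)
    (hal : Tendsto (fun n => (a n : ℝ)) atTop atTop) (hbl : ∀ᶠ n : ℕ in atTop, lam * n ≤ b n) :
    LinearIndependent ℚ ![1, cf a, cf b, cf a * cf b] := by
  obtain ⟨t, ht, et⟩ := exists_tl a ha
  obtain ⟨s, hs, es⟩ := exists_tl b hb
  refine lin_of_int fun A B C D h => ?_
  refine indep ha hb ht hs hμ hml hau hal hbl ?_
  rw [et, es]
  simpa using h

theorem c2_indep {b : ℕ → ℕ} (hb : ∀ i, 1 ≤ b i) {lam : ℝ} (hl : 1 / 2 < lam)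
    (hbl : ∀ᶠ n : ℕ in atTop, lam * n ≤ b n) :
    LinearIndependent ℚ ![1, c2, cf b, c2 * cf b] :=
  general (fun i => by omega) hb (by norm_num : (0 : ℝ) < 1 / 2) hl half_le half_tendsto hbl

theorem ap_large (a b : ℕ) (hb : 1 ≤ b) :
    ∀ᶠ n : ℕ in atTop, (1 : ℝ) * n ≤ ((a + n * b : ℕ) : ℝ) := by
  refine Eventually.of_forall fun n => ?_
  rw [one_mul]
  exact_mod_cast (by nlinarith : n ≤ a + n * b)

/-- Every continued fraction `[0; a 0, a 1, ...]` with `a i ≥ 1` converges. Let the partial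
quotients `a n` tend to infinity with `a n ≤ μ n + K`, and let `b n ≥ λ n` for all large `n`, where
`λ > μ > 0`. Then `1, x, y, x y` are linearly independent over `ℚ`, where `x`, `y` are the values
of the two continued fractions.

In particular `1, c₂, ξ, c₂ ξ` are linearly independent over `ℚ` (so that `c₂` is not of the form
`(p ξ + q) / (r ξ + s)` with rational `p, q, r, s`) for every `ξ = [0; a, a+b, a+2b, ...]`, `a, b ≥ 1`,
which is the quotient `0F1(; a/b+1; 1/b²) / (a 0F1(; a/b; 1/b²))` (for `a = b = 1`: `c₁`), and for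
`ξ = e^(2/k)`, `k ≥ 1`. -/
theorem result :
    (∀ a : ℕ → ℕ, (∀ i, 1 ≤ a i) → Tendsto (fcf a) atTop (𝓝 (cf a))) ∧
    (∀ a b : ℕ → ℕ, (∀ i, 1 ≤ a i) → (∀ i, 1 ≤ b i) → ∀ μ K lam : ℝ, 0 < μ → μ < lam →
      (∀ n : ℕ, (a n : ℝ) ≤ μ * n + K) → Tendsto (fun n => (a n : ℝ)) atTop atTop →
      (∀ᶠ n : ℕ in atTop, lam * n ≤ b n) →
      LinearIndependent ℚ ![1, cf a, cf b, cf a * cf b]) ∧
    (∀ a b : ℕ, 1 ≤ a → 1 ≤ b → ∃ ξ : ℝ, ξ = cf (fun n => a + n * b) ∧
      ξ = hyp ((a : ℝ) / b + 1) (1 / (b : ℝ) ^ 2) / (a * hyp ((a : ℝ) / b) (1 / (b : ℝ) ^ 2)) ∧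
      LinearIndependent ℚ ![1, c2, ξ, c2 * ξ]) ∧
    (∀ k : ℕ, 1 ≤ k →
      LinearIndependent ℚ ![1, c2, Real.exp (2 / k), c2 * Real.exp (2 / k)]) := by
  refine ⟨fun a ha => tendsto_cf a ha, fun a b ha hb μ K lam h1 h2 h3 h4 h5 =>
    general ha hb h1 h2 h3 h4 h5, fun a b ha hb => ⟨_, rfl, cf_ap a b ha hb,
    c2_indep (fun i => by omega) (by norm_num : (1 : ℝ) / 2 < 1) (ap_large a b hb)⟩, fun k hk => ?_⟩
  -- `e^(2/k) = (1 + t) / (1 - t)`, `t = tanh (1/k)`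
  obtain ⟨s, hs, es⟩ := exists_tl (fun n => k + n * (2 * k)) (fun i => by omega)
  obtain ⟨t, ht, et⟩ := exists_tl (fun n => n / 2 + 1) (fun i => by omega)
  rw [cf_tanh k hk] at es
  have hc := Real.cosh_pos (1 / (k : ℝ))
  have hE : Real.exp (2 / k) * (1 - s 0) = 1 + s 0 := by
    have h1 : s 0 * Real.cosh (1 / k) = Real.sinh (1 / k) := by rw [es]; field_simp
    have h2 : Real.exp (2 / k) = Real.exp (1 / k) * Real.exp (1 / k) := by
      rw [← Real.exp_add]; congr 1; ring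
    have h3 : Real.exp (1 / k) * Real.exp (-(1 / k)) = 1 := by rw [← Real.exp_add]; simp
    have h4 : Real.cosh (1 / k) - Real.sinh (1 / k) = Real.exp (-(1 / k)) := Real.cosh_sub_sinh _
    have h5 : Real.cosh (1 / k) + Real.sinh (1 / k) = Real.exp (1 / k) := Real.cosh_add_sinh _
    have h6 : (Real.exp (2 / k) * (1 - s 0)) * Real.cosh (1 / k) =
        (1 + s 0) * Real.cosh (1 / k) := by
      calc (Real.exp (2 / k) * (1 - s 0)) * Real.cosh (1 / k)
          = Real.exp (2 / k) * (Real.cosh (1 / k) - s 0 * Real.cosh (1 / k)) := by ring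
        _ = Real.exp (1 / k) * (Real.exp (1 / k) * Real.exp (-(1 / k))) := by
          rw [h1, h4, h2]; ring
        _ = Real.cosh (1 / k) + s 0 * Real.cosh (1 / k) := by rw [h3, h1, h5, mul_one]
        _ = (1 + s 0) * Real.cosh (1 / k) := by ring
    exact mul_right_cancel₀ hc.ne' h6
  refine lin_of_int fun A B C D h => ?_
  have h' : (A : ℝ) + B * c2 + C * Real.exp (2 / k) + D * (c2 * Real.exp (2 / k)) = 0 := by
    simpa using h
  have hc2 : t 0 = c2 := et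
  have h1 : (((A + C : ℤ) : ℝ)) + ((B + D : ℤ) : ℝ) * t 0 + ((C - A : ℤ) : ℝ) * s 0 +
      ((D - B : ℤ) : ℝ) * (t 0 * s 0) = 0 := by
    rw [hc2]; push_cast
    linear_combination (1 - s 0) * h' - (C + D * c2) * hE
  have h2 := indep (fun i => by omega) (fun i => by omega) ht hs (by norm_num : (0 : ℝ) < 1 / 2)
    (by norm_num : (1 : ℝ) / 2 < 1) half_le half_tendsto (ap_large k (2 * k) (by omega)) h1
  omega

end Pool.Agent.Results.MP_d96d20_an.NotMoebius
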